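import Pool.Agent.Helper51_Equitable.Main

/-!
# From nice graphs to the statement of the bound
-/

open SimpleGraph Finset

namespace Pool.Agent.Helper51_Equitable

variable {V : Type} [Fintype V] {G : SimpleGraph V}

omit [Fintype V] in
/-- In a nice graph one of the ends of an edge has another neighbour. -/
theorem Nice.exists_other (h : Nice G) {u v : V} (huv : G.Adj u v) :
    (∃ w, w ≠ v ∧ G.Adj u w) ∨ (∃ w, w ≠ u ∧ G.Adj v w) := by
  classical
  by_contra hcon
  push Not at hcon
  obtain ⟨hu, hv⟩ := hcon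
  have hu' : ∀ w, G.Adj u w → w = v := fun w hw => by
    by_contra hne
    exact hu w hne hw
  have hv' : ∀ w, G.Adj v w → w = u := fun w hw => by
    by_contra hne
    exact hv w hne hw
  have hwalk : ∀ {x w : V}, G.Walk x w → (x = u ∨ x = v) → (w = u ∨ w = v) := by
    intro x w p
    induction p with
    | nil => exact id
    | cons hxy _ ih =>
      intro hx
      apply ih
      rcases hx with rfl | rfl
      · exact Or.inr (hu' _ hxy)
      · exact Or.inl (hv' _ hxy)
  set c := G.connectedComponentMk u with hc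
  have hsupp : ∀ w, w ∈ c.supp ↔ (w = u ∨ w = v) := by
    intro w
    rw [ConnectedComponent.mem_supp_iff, hc, ConnectedComponent.eq]
    constructor
    · intro hr
      obtain ⟨p⟩ := hr.symm
      exact hwalk p (Or.inl rfl)
    · rintro (rfl | rfl)
      · exact Reachable.refl _
      · exact huv.symm.reachable
  have hset : c.supp = (({u, v} : Finset V) : Set V) := by
    ext w
    rw [hsupp]
    simp
  have : Fintype c.supp := by
    rw [hset]
    exact inferInstance
  have hcard : Fintype.card c.supp = 2 := by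
    rw [← Nat.card_eq_fintype_card, Nat.card_coe_set_eq, hset, Set.ncard_coe_finset,
      Finset.card_pair huv.ne]
  let e : c.supp ≃ Fin 2 := Fintype.equivFinOfCardEq hcard
  refine (h c).false ⟨e, ?_⟩
  intro x y
  rw [top_adj, e.injective.ne_iff]
  constructor
  · intro hne
    have hne' : x.1 ≠ y.1 := fun h => hne (Subtype.ext h)
    show G.Adj x.1 y.1
    rcases (hsupp x.1).1 x.2 with hx | hx <;> rcases (hsupp y.1).1 y.2 with hy | hy
    · exact absurd (hx.trans hy.symm) hne'
    · rw [hx, hy]; exact huv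
    · rw [hx, hy]; exact huv.symm
    · exact absurd (hx.trans hy.symm) hne'
  · intro hadj hxy
    rw [hxy] at hadj
    exact G.irrefl (hadj : G.Adj y.1 y.1)

theorem Nice.hasNext (h : Nice G) : HasNext G := by
  intro e he
  induction e using Sym2.ind with
  | _ u v =>
    have huv : G.Adj u v := mem_edges.1 he
    rcases h.exists_other huv with ⟨w, hw, huw⟩ | ⟨w, hw, hvw⟩
    · refine ⟨s(u, w), mem_edges.2 huw, ?_, u, Sym2.mem_mk_left u v, Sym2.mem_mk_left u w⟩
      intro heq
      rcases Sym2.eq_iff.1 heq with ⟨_, h2⟩ | ⟨h1, h2⟩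
      · exact hw h2
      · exact hw (h2.trans h1)
    · refine ⟨s(v, w), mem_edges.2 hvw, ?_, v, Sym2.mem_mk_right u v, Sym2.mem_mk_left v w⟩
      intro heq
      rcases Sym2.eq_iff.1 heq with ⟨h1, h2⟩ | ⟨_, h2⟩
      · exact hw (h2.trans h1)
      · exact hw h2

theorem two_le_of_hasNext {Δ : ℕ} (hΔ : ∀ v, (nbrs G v).card ≤ Δ) (hnext : HasNext G)
    (hE : (edges G).Nonempty) : 2 ≤ Δ := by
  classical
  obtain ⟨e, he⟩ := hE
  obtain ⟨f, hf, hfe, v, hve, hvf⟩ := hnext e he
  obtain ⟨a, rfl⟩ := Sym2.mem_iff_exists.1 hve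
  obtain ⟨b, rfl⟩ := Sym2.mem_iff_exists.1 hvf
  have hab : a ≠ b := by
    rintro rfl
    exact hfe rfl
  have hsub : ({a, b} : Finset V) ⊆ nbrs G v := by
    intro x hx
    rw [Finset.mem_insert, Finset.mem_singleton] at hx
    rcases hx with rfl | rfl
    · exact mem_nbrs.2 (mem_edges.1 he)
    · exact mem_nbrs.2 (mem_edges.1 hf)
  have h1 := Finset.card_le_card hsub
  rw [Finset.card_pair hab] at h1
  exact h1.trans (hΔ v)

theorem bound_le {Δ : ℕ} (h : 2 ≤ Δ) : bound Δ ≤ 160 * Δ ^ 7 := by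
  obtain ⟨d, rfl⟩ : ∃ d, Δ = d + 2 := ⟨Δ - 2, by omega⟩
  have : 160 * (d + 2) ^ 7 = bound (d + 2) + (23 + 3708 * d + 9864 * d ^ 2 + 11064 * d ^ 3
      + 6664 * d ^ 4 + 2272 * d ^ 5 + 416 * d ^ 6 + 32 * d ^ 7) := by
    unfold bound numK
    ring
  omega

theorem IsEquitableProper.mono {k k' : ℕ} {ℓ : Sym2 V → ℕ} (h : IsEquitableProper G k ℓ)
    (hk : k ≤ k') : IsEquitableProper G k' ℓ :=
  ⟨fun e he => ⟨(h.range e he).1, (h.range e he).2.trans hk⟩, h.proper, h.equitable⟩

theorem exists_equitable_of_nice {Δ : ℕ} (hG : Nice G)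
    (hΔ : ∀ v, (G.neighborSet v).ncard ≤ Δ) :
    ∃ ℓ : Sym2 V → ℕ, IsEquitableProper G (160 * Δ ^ 7) ℓ := by
  classical
  have hΔ' : ∀ v, (nbrs G v).card ≤ Δ := by
    intro v
    have : (G.neighborSet v).ncard = (nbrs G v).card := by
      rw [← Set.ncard_coe_finset]
      congr 1
      ext w
      simp [mem_nbrs]
    rw [← this]
    exact hΔ v
  by_cases hE : (edges G).Nonempty
  · have h2 := two_le_of_hasNext hΔ' hG.hasNext hE
    obtain ⟨ℓ, hℓ⟩ := exists_equitable (by omega) hΔ' hG.hasNext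
    exact ⟨ℓ, hℓ.mono (bound_le h2)⟩
  · rw [Finset.not_nonempty_iff_eq_empty] at hE
    have hno : ∀ e, e ∉ G.edgeSet := by
      intro e he
      have := mem_edges.2 he
      rw [hE] at this
      simp at this
    refine ⟨fun _ => 0, fun e he => absurd he (hno e), fun u v huv => ?_, fun l l' hl _ => ?_⟩
    · exact absurd (mem_edges.1 (mem_edges.2 huv : s(u, v) ∈ edges G)) (hno _)
    · rw [nb_eq, hE] at hl
      simp at hl

end Pool.Agent.Helper51_Equitable
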