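import Pool.Agent.Helper51_Equitable.Basic

/-!
# A proper labelling in which every used class is large
-/

open SimpleGraph Finset

namespace Pool.Agent.Helper51_Equitable

variable {V : Type} [Fintype V] {G : SimpleGraph V}

open Classical in
/-- the class of a label -/
noncomputable def cls (G : SimpleGraph V) (ℓ : Sym2 V → ℕ) (b : ℕ) : Finset (Sym2 V) :=
  (edges G).filter (fun e => ℓ e = b)

theorem mem_cls {ℓ : Sym2 V → ℕ} {b : ℕ} {e : Sym2 V} : e ∈ cls G ℓ b ↔ e ∈ edges G ∧ ℓ e = b := by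
  unfold cls
  simp

open Classical in
theorem cls_update_same {ℓ : Sym2 V → ℕ} {e : Sym2 V} (he : e ∈ edges G) (x : ℕ) :
    cls G (Function.update ℓ e x) x = insert e (cls G ℓ x) := by
  ext f
  rw [Finset.mem_insert, mem_cls, mem_cls]
  by_cases h : f = e
  · subst h
    simp [he]
  · rw [Function.update_of_ne h]
    simp [h]

open Classical in
theorem cls_update_other {ℓ : Sym2 V → ℕ} {e : Sym2 V} {x b : ℕ} (hb : b ≠ x) :
    cls G (Function.update ℓ e x) b = (cls G ℓ b).erase e := by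
  ext f
  rw [Finset.mem_erase, mem_cls, mem_cls]
  by_cases h : f = e
  · subst h
    simp [Ne.symm hb]
  · rw [Function.update_of_ne h]
    simp [h]

open Classical in
/-- Moving an edge from a class to a much smaller one decreases the sum of squares. -/
theorem sq_lt {ℓ : Sym2 V → ℕ} {e : Sym2 V} (he : e ∈ edges G) {x : ℕ} {L : Finset ℕ}
    (hxL : x ∈ L) (heL : ℓ e ∈ L) (hlt : (cls G ℓ x).card + 1 < (cls G ℓ (ℓ e)).card) :
    ∑ b ∈ L, (cls G (Function.update ℓ e x) b).card ^ 2 < ∑ b ∈ L, (cls G ℓ b).card ^ 2 := by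
  have hne : ℓ e ≠ x := by
    intro h
    rw [h] at hlt
    omega
  have h1 : (cls G (Function.update ℓ e x) x).card = (cls G ℓ x).card + 1 := by
    rw [cls_update_same he, Finset.card_insert_of_notMem]
    rw [mem_cls]
    exact fun h => hne h.2
  have h2 : (cls G (Function.update ℓ e x) (ℓ e)).card + 1 = (cls G ℓ (ℓ e)).card := by
    rw [cls_update_other hne, Finset.card_erase_of_mem (mem_cls.2 ⟨he, rfl⟩)]
    omega
  have h3 : ∀ b, b ≠ x → b ≠ ℓ e → (cls G (Function.update ℓ e x) b).card = (cls G ℓ b).card := by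
    intro b hbx hbe
    rw [cls_update_other hbx, Finset.erase_eq_of_notMem]
    rw [mem_cls]
    exact fun h => hbe h.2.symm
  have hxL' : x ∈ L.erase (ℓ e) := Finset.mem_erase.2 ⟨hne.symm, hxL⟩
  rw [← Finset.add_sum_erase L _ heL, ← Finset.add_sum_erase L (fun b => (cls G ℓ b).card ^ 2) heL,
    ← Finset.add_sum_erase (L.erase (ℓ e)) _ hxL',
    ← Finset.add_sum_erase (L.erase (ℓ e)) (fun b => (cls G ℓ b).card ^ 2) hxL']
  have h4 : ∑ b ∈ (L.erase (ℓ e)).erase x, (cls G (Function.update ℓ e x) b).card ^ 2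
      = ∑ b ∈ (L.erase (ℓ e)).erase x, (cls G ℓ b).card ^ 2 := by
    apply Finset.sum_congr rfl
    intro b hb
    rw [Finset.mem_erase, Finset.mem_erase] at hb
    rw [h3 b hb.1 hb.2.1]
  rw [h4, h1, ← h2]
  have h5 : (cls G ℓ x).card < (cls G (Function.update ℓ e x) (ℓ e)).card := by omega
  nlinarith [h5]

open Classical in
/-- There are a set `L` of labels in `{1,…,Y}` and a proper labelling with labels in `L` such that
every class of `L` is large. -/
theorem exists_balanced {Δ : ℕ} (hΔ : ∀ v, (nbrs G v).card ≤ Δ) (hnext : HasNext G)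
    {Y : ℕ} (hY : 2 * (2 * Δ - 2) < Y) :
    ∃ (L : Finset ℕ) (ℓ : Sym2 V → ℕ), L ⊆ Finset.Icc 1 Y ∧ Proper G ℓ ∧
      (∀ e ∈ edges G, ℓ e ∈ L) ∧
      ∀ b ∈ L, (edges G).card ≤ Y * ((cls G ℓ b).card + 1) := by
  have hcardY : (Finset.Icc 1 Y).card = Y := by simp
  -- a proper labelling minimising the sum of squares
  let S : Set (Sym2 V → ℕ) := {ℓ | Proper G ℓ ∧ ∀ e ∈ edges G, ℓ e ∈ Finset.Icc 1 Y}
  have hS : S.Nonempty := by
    obtain ⟨ℓ, h1, h2⟩ := exists_proper hΔ hnext (L := Finset.Icc 1 Y) (by rw [hcardY]; omega)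
    exact ⟨ℓ, h1, h2⟩
  let Φ : (Sym2 V → ℕ) → ℕ := fun ℓ => ∑ b ∈ Finset.Icc 1 Y, (cls G ℓ b).card ^ 2
  obtain ⟨ℓ, ⟨hprop, hlab⟩, hmin⟩ := (measure Φ).wf.has_min S hS
  by_cases hE : (edges G).Nonempty
  swap
  · -- no edges at all
    rw [Finset.not_nonempty_iff_eq_empty] at hE
    refine ⟨∅, ℓ, by simp, hprop, ?_, by simp⟩
    rw [hE]
    simp
  -- the largest class
  have hIcc : (Finset.Icc 1 Y).Nonempty := by
    rw [← Finset.card_pos, hcardY]; omega
  obtain ⟨a, haY, hamax⟩ := Finset.exists_max_image (Finset.Icc 1 Y) (fun b => (cls G ℓ b).card)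
    hIcc
  set h : ℕ := (cls G ℓ a).card with hh
  have hsum : (edges G).card = ∑ b ∈ Finset.Icc 1 Y, (cls G ℓ b).card := by
    unfold cls
    exact Finset.card_eq_sum_card_fiberwise (fun e he => hlab e he)
  have hm : (edges G).card ≤ Y * h := by
    rw [hsum]
    calc ∑ b ∈ Finset.Icc 1 Y, (cls G ℓ b).card ≤ ∑ _b ∈ Finset.Icc 1 Y, h :=
          Finset.sum_le_sum fun b hb => hamax b hb
      _ = Y * h := by rw [Finset.sum_const, hcardY, smul_eq_mul]
  have hpos : 0 < h := by
    have := Finset.card_pos.2 hE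
    by_contra hcon
    have h0 : h = 0 := by omega
    rw [h0] at hm
    omega
  obtain ⟨e, he⟩ := Finset.card_pos.1 hpos
  have he' := mem_cls.1 he
  obtain ⟨F, hF, hF'⟩ := exists_forb_proper hΔ hprop he'.1
  -- the large labels
  let L : Finset ℕ := (Finset.Icc 1 Y).filter (fun b => h ≤ (cls G ℓ b).card + 1)
  have hLsub : L ⊆ Finset.Icc 1 Y := Finset.filter_subset _ _
  have hLbig : (Finset.Icc 1 Y) \ F ⊆ L := by
    intro b hb
    rw [Finset.mem_sdiff] at hb
    refine Finset.mem_filter.2 ⟨hb.1, ?_⟩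
    by_contra hcon
    push Not at hcon
    have hlt := sq_lt (ℓ := ℓ) (L := Finset.Icc 1 Y) he'.1 hb.1 (by rw [he'.2]; exact haY)
      (by rw [he'.2]; exact hcon)
    refine hmin (Function.update ℓ e b) ⟨hF' b hb.2, ?_⟩ hlt
    intro f hf
    by_cases hfe : f = e
    · subst hfe
      rw [Function.update_self]
      exact hb.1
    · rw [Function.update_of_ne hfe]
      exact hlab f hf
  have hLcard : 2 * Δ - 2 < L.card := by
    have h1 := Finset.card_le_card hLbig
    have h2 := Finset.le_card_sdiff F (Finset.Icc 1 Y)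
    omega
  -- eliminate the small classes
  let S' : Set (Sym2 V → ℕ) := {ℓ' | Proper G ℓ' ∧ ∀ b ∈ L, (cls G ℓ b).card ≤ (cls G ℓ' b).card}
  let Ψ : (Sym2 V → ℕ) → ℕ := fun ℓ' => ((edges G).filter (fun e => ℓ' e ∉ L)).card
  obtain ⟨ℓ', ⟨hprop', hcls'⟩, hmin'⟩ := (measure Ψ).wf.has_min S' ⟨ℓ, hprop, fun b _ => le_rfl⟩
  have hlab' : ∀ e ∈ edges G, ℓ' e ∈ L := by
    intro f hf
    by_contra hfL
    obtain ⟨F', hF1, hF2⟩ := exists_forb_proper hΔ hprop' hf
    obtain ⟨x, hxL, hxF⟩ : ∃ x ∈ L, x ∉ F' := by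
      by_contra hcon
      push Not at hcon
      have := Finset.card_le_card (fun x hx => hcon x hx : L ⊆ F')
      omega
    refine hmin' (Function.update ℓ' f x) ⟨hF2 x hxF, ?_⟩ ?_
    · intro b hb
      by_cases hbx : b = x
      · subst hbx
        rw [cls_update_same hf]
        exact (hcls' b hb).trans (Finset.card_le_card (Finset.subset_insert _ _))
      · rw [cls_update_other hbx, Finset.erase_eq_of_notMem]
        · exact hcls' b hb
        · rw [mem_cls]
          rintro ⟨_, h2⟩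
          exact hfL (h2 ▸ hb)
    · show ((edges G).filter (fun e => Function.update ℓ' f x e ∉ L)).card
        < ((edges G).filter (fun e => ℓ' e ∉ L)).card
      apply Finset.card_lt_card
      rw [Finset.ssubset_iff_of_subset]
      · refine ⟨f, Finset.mem_filter.2 ⟨hf, hfL⟩, ?_⟩
        rw [Finset.mem_filter, Function.update_self]
        exact fun h => h.2 hxL
      · intro g hg
        rw [Finset.mem_filter] at hg ⊢
        refine ⟨hg.1, ?_⟩
        have hgf : g ≠ f := by
          rintro rfl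
          rw [Function.update_self] at hg
          exact hg.2 hxL
        have h2 := hg.2
        rw [Function.update_of_ne hgf] at h2
        exact h2
  refine ⟨L, ℓ', hLsub, hprop', hlab', ?_⟩
  intro b hb
  have h1 : h ≤ (cls G ℓ b).card + 1 := (Finset.mem_filter.1 hb).2
  have h2 := hcls' b hb
  exact hm.trans (Nat.mul_le_mul_left _ (by omega))

end Pool.Agent.Helper51_Equitable
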