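import Pool.Agent.Helper51_Equitable.Defs

/-!
# Relabelling one edge
-/

open SimpleGraph Finset

namespace Pool.Agent.Helper51_Equitable

variable {V : Type} [Fintype V] {G : SimpleGraph V}

open Classical in
/-- edges as a finset -/
noncomputable def edges (G : SimpleGraph V) : Finset (Sym2 V) := G.edgeFinset

theorem mem_edges {e : Sym2 V} : e ∈ edges G ↔ e ∈ G.edgeSet := by
  classical
  unfold edges
  simp

open Classical in
/-- neighbours as a finset -/
noncomputable def nbrs (G : SimpleGraph V) (v : V) : Finset V := Finset.univ.filter (G.Adj v)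

theorem mem_nbrs {v w : V} : w ∈ nbrs G v ↔ G.Adj v w := by
  unfold nbrs
  simp

theorem vertexSum_eq (ℓ : Sym2 V → ℕ) (v : V) :
    vertexSum G ℓ v = ∑ w ∈ nbrs G v, ℓ s(v, w) := by
  classical
  unfold vertexSum nbrs
  rw [Finset.sum_filter]

theorem vertexSum_congr {ℓ ℓ' : Sym2 V → ℕ} {v : V}
    (h : ∀ w, G.Adj v w → ℓ s(v, w) = ℓ' s(v, w)) : vertexSum G ℓ v = vertexSum G ℓ' v := by
  rw [vertexSum_eq, vertexSum_eq]
  exact Finset.sum_congr rfl fun w hw => h w (mem_nbrs.1 hw)

open Classical in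
theorem vertexSum_update_of_mem {ℓ : Sym2 V → ℕ} {a b : V} (hab : G.Adj a b) (x : ℕ) :
    vertexSum G (Function.update ℓ s(a, b) x) a + ℓ s(a, b) = vertexSum G ℓ a + x := by
  rw [vertexSum_eq, vertexSum_eq, ← Finset.add_sum_erase _ _ (mem_nbrs.2 hab),
    ← Finset.add_sum_erase (nbrs G a) _ (mem_nbrs.2 hab), Function.update_self]
  have : ∑ w ∈ (nbrs G a).erase b, Function.update ℓ s(a, b) x s(a, w)
      = ∑ w ∈ (nbrs G a).erase b, ℓ s(a, w) := by
    apply Finset.sum_congr rfl
    intro w hw
    rw [Function.update_of_ne]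
    intro h
    have hwb := Finset.ne_of_mem_erase hw
    rcases Sym2.eq_iff.1 h with ⟨_, h2⟩ | ⟨h1, h2⟩
    · exact hwb h2
    · exact hwb (h2.trans h1)
  rw [this]
  omega

open Classical in
theorem vertexSum_update_of_notMem {ℓ : Sym2 V → ℕ} {e : Sym2 V} {v : V} (hv : v ∉ e) (x : ℕ) :
    vertexSum G (Function.update ℓ e x) v = vertexSum G ℓ v := by
  apply vertexSum_congr
  intro w _
  rw [Function.update_of_ne]
  rintro rfl
  exact hv (Sym2.mem_mk_left v w)

/-- the edge `e` joins two vertices with the same sum -/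
def Conflict (G : SimpleGraph V) (ℓ : Sym2 V → ℕ) (e : Sym2 V) : Prop :=
  ∀ u ∈ e, ∀ v ∈ e, vertexSum G ℓ u = vertexSum G ℓ v

theorem conflict_mk {ℓ : Sym2 V → ℕ} {u v : V} :
    Conflict G ℓ s(u, v) ↔ vertexSum G ℓ u = vertexSum G ℓ v := by
  unfold Conflict
  constructor
  · intro h
    exact h u (Sym2.mem_mk_left u v) v (Sym2.mem_mk_right u v)
  · intro h a ha b hb
    rcases Sym2.mem_iff.1 ha with rfl | rfl <;> rcases Sym2.mem_iff.1 hb with rfl | rfl
    · rfl
    · exact h
    · exact h.symm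
    · rfl

/-- no conflicts on edges -/
def Proper (G : SimpleGraph V) (ℓ : Sym2 V → ℕ) : Prop := ∀ e ∈ edges G, ¬ Conflict G ℓ e

theorem proper_iff {ℓ : Sym2 V → ℕ} :
    Proper G ℓ ↔ ∀ u v, G.Adj u v → vertexSum G ℓ u ≠ vertexSum G ℓ v := by
  constructor
  · intro h u v huv heq
    exact h s(u, v) (mem_edges.2 huv) (conflict_mk.2 heq)
  · intro h e he
    induction e using Sym2.ind with
    | _ u v => exact fun hc => h u v (mem_edges.1 he) (conflict_mk.1 hc)

open Classical in
/-- Forbidden values for the label of an edge `e`. -/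
theorem exists_forb {Δ : ℕ} (hΔ : ∀ v, (nbrs G v).card ≤ Δ) (ℓ : Sym2 V → ℕ) {e : Sym2 V}
    (he : e ∈ edges G) :
    ∃ F : Finset ℕ, F.card ≤ 2 * Δ - 2 ∧ ∀ x, x ∉ F →
      (∀ f ∈ edges G, f ≠ e → (∃ v ∈ e, v ∈ f) → ¬ Conflict G (Function.update ℓ e x) f) ∧
      (∀ f ∈ edges G, (f = e ∨ ¬ ∃ v ∈ e, v ∈ f) →
        (Conflict G (Function.update ℓ e x) f ↔ Conflict G ℓ f)) := by
  induction e using Sym2.ind with
  | _ a b =>
    have hab : G.Adj a b := mem_edges.1 he
    have hba : G.Adj b a := hab.symm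
    let Fa : Finset ℕ := ((nbrs G a).erase b).image
      (fun w => vertexSum G ℓ w + ℓ s(a, b) - vertexSum G ℓ a)
    let Fb : Finset ℕ := ((nbrs G b).erase a).image
      (fun w => vertexSum G ℓ w + ℓ s(a, b) - vertexSum G ℓ b)
    have hcard : (Fa ∪ Fb).card ≤ 2 * Δ - 2 := by
      have h1 : Fa.card ≤ Δ - 1 := by
        refine Finset.card_image_le.trans ?_
        rw [Finset.card_erase_of_mem (mem_nbrs.2 hab)]
        have := hΔ a
        omega
      have h2 : Fb.card ≤ Δ - 1 := by
        refine Finset.card_image_le.trans ?_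
        rw [Finset.card_erase_of_mem (mem_nbrs.2 hba)]
        have := hΔ b
        omega
      have := Finset.card_union_le Fa Fb
      omega
    refine ⟨Fa ∪ Fb, hcard, ?_⟩
    intro x hx
    have hxa : x ∉ Fa := fun h => hx (Finset.mem_union_left _ h)
    have hxb : x ∉ Fb := fun h => hx (Finset.mem_union_right _ h)
    have ua := vertexSum_update_of_mem (ℓ := ℓ) hab x
    have ub : vertexSum G (Function.update ℓ s(a, b) x) b + ℓ s(a, b) = vertexSum G ℓ b + x := by
      have := vertexSum_update_of_mem (ℓ := ℓ) hba x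
      rw [Sym2.eq_swap (a := b) (b := a)] at this
      exact this
    -- no conflict between `a` and another neighbour
    have keya : ∀ w, G.Adj a w → w ≠ b →
        vertexSum G (Function.update ℓ s(a, b) x) a
          ≠ vertexSum G (Function.update ℓ s(a, b) x) w := by
      intro w haw hwb heq
      have hw : w ∉ (s(a, b) : Sym2 V) := by
        rw [Sym2.mem_iff]
        rintro (rfl | rfl)
        · exact G.irrefl haw
        · exact hwb rfl
      rw [vertexSum_update_of_notMem hw] at heq
      apply hxa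
      refine Finset.mem_image.2 ⟨w, Finset.mem_erase.2 ⟨hwb, mem_nbrs.2 haw⟩, ?_⟩
      omega
    have keyb : ∀ w, G.Adj b w → w ≠ a →
        vertexSum G (Function.update ℓ s(a, b) x) b
          ≠ vertexSum G (Function.update ℓ s(a, b) x) w := by
      intro w hbw hwa heq
      have hw : w ∉ (s(a, b) : Sym2 V) := by
        rw [Sym2.mem_iff]
        rintro (rfl | rfl)
        · exact hwa rfl
        · exact G.irrefl hbw
      rw [vertexSum_update_of_notMem hw] at heq
      apply hxb
      refine Finset.mem_image.2 ⟨w, Finset.mem_erase.2 ⟨hwa, mem_nbrs.2 hbw⟩, ?_⟩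
      omega
    constructor
    · intro f hf hne hmeet hc
      obtain ⟨v, hv, hvf⟩ := hmeet
      obtain ⟨w, rfl⟩ := Sym2.mem_iff_exists.1 hvf
      have hvw : G.Adj v w := mem_edges.1 hf
      rw [conflict_mk] at hc
      rcases Sym2.mem_iff.1 hv with rfl | rfl
      · exact keya w hvw (fun h => hne (by rw [h])) hc
      · exact keyb w hvw (fun h => hne (by rw [h, Sym2.eq_swap])) hc
    · intro f hf hor
      rcases hor with rfl | hno
      · rw [conflict_mk, conflict_mk]
        constructor <;> intro h <;> omega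
      · induction f using Sym2.ind with
        | _ u v =>
          rw [conflict_mk, conflict_mk]
          rw [vertexSum_update_of_notMem (fun h => hno ⟨u, h, Sym2.mem_mk_left u v⟩),
            vertexSum_update_of_notMem (fun h => hno ⟨v, h, Sym2.mem_mk_right u v⟩)]

open Classical in
/-- Relabelling an edge of a proper labelling: at most `2Δ-2` values are forbidden. -/
theorem exists_forb_proper {Δ : ℕ} (hΔ : ∀ v, (nbrs G v).card ≤ Δ) {ℓ : Sym2 V → ℕ}
    (hℓ : Proper G ℓ) {e : Sym2 V} (he : e ∈ edges G) :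
    ∃ F : Finset ℕ, F.card ≤ 2 * Δ - 2 ∧ ∀ x, x ∉ F → Proper G (Function.update ℓ e x) := by
  obtain ⟨F, hF, h⟩ := exists_forb hΔ ℓ he
  refine ⟨F, hF, fun x hx f hf => ?_⟩
  by_cases hfe : f = e
  · rw [(h x hx).2 f hf (Or.inl hfe)]
    exact hℓ f hf
  · by_cases hm : ∃ v ∈ e, v ∈ f
    · exact (h x hx).1 f hf hfe hm
    · rw [(h x hx).2 f hf (Or.inr hm)]
      exact hℓ f hf

/-- Every edge has an adjacent edge. This is what niceness is used for. -/
def HasNext (G : SimpleGraph V) : Prop :=
  ∀ e ∈ edges G, ∃ f ∈ edges G, f ≠ e ∧ ∃ v ∈ e, v ∈ f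

open Classical in
/-- the conflicting edges -/
noncomputable def bad (G : SimpleGraph V) (ℓ : Sym2 V → ℕ) : Finset (Sym2 V) :=
  (edges G).filter (Conflict G ℓ)

open Classical in
/-- A graph in which every edge has an adjacent edge has a proper labelling with labels from any set
with more than `2Δ - 2` elements. -/
theorem exists_proper {Δ : ℕ} (hΔ : ∀ v, (nbrs G v).card ≤ Δ) (hnext : HasNext G)
    {L : Finset ℕ} (hL : 2 * Δ - 2 < L.card) :
    ∃ ℓ : Sym2 V → ℕ, Proper G ℓ ∧ ∀ e ∈ edges G, ℓ e ∈ L := by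
  have hLne : L.Nonempty := by
    rw [← Finset.card_pos]
    omega
  obtain ⟨x₀, hx₀⟩ := hLne
  have main : ∀ n, ∀ ℓ : Sym2 V → ℕ, (bad G ℓ).card = n → (∀ e ∈ edges G, ℓ e ∈ L) →
      ∃ ℓ' : Sym2 V → ℕ, Proper G ℓ' ∧ ∀ e ∈ edges G, ℓ' e ∈ L := by
    intro n
    induction n using Nat.strong_induction_on with
    | _ n ih =>
      intro ℓ hn hℓ
      by_cases hbad : (bad G ℓ).Nonempty
      · obtain ⟨e, he⟩ := hbad
        have he' := Finset.mem_filter.1 he
        obtain ⟨f, hf, hfe, v, hv, hvf⟩ := hnext e he'.1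
        obtain ⟨F, hF, hF'⟩ := exists_forb hΔ ℓ hf
        obtain ⟨x, hxL, hxF⟩ : ∃ x ∈ L, x ∉ F := by
          by_contra hcon
          push Not at hcon
          have := Finset.card_le_card (fun x hx => hcon x hx : L ⊆ F)
          omega
        have hsub : bad G (Function.update ℓ f x) ⊆ (bad G ℓ).erase e := by
          intro g hg
          have hg' := Finset.mem_filter.1 hg
          by_cases hgf : g = f
          · rw [Finset.mem_erase]
            refine ⟨fun h => hfe (hgf ▸ h), ?_⟩
            exact Finset.mem_filter.2 ⟨hg'.1, ((hF' x hxF).2 g hg'.1 (Or.inl hgf)).1 hg'.2⟩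
          · by_cases hm : ∃ u ∈ f, u ∈ g
            · exact absurd hg'.2 ((hF' x hxF).1 g hg'.1 hgf hm)
            · rw [Finset.mem_erase]
              refine ⟨?_, Finset.mem_filter.2 ⟨hg'.1,
                ((hF' x hxF).2 g hg'.1 (Or.inr hm)).1 hg'.2⟩⟩
              rintro rfl
              exact hm ⟨v, hvf, hv⟩
        have hlt : (bad G (Function.update ℓ f x)).card < n := by
          refine (Finset.card_le_card hsub).trans_lt ?_
          rw [Finset.card_erase_of_mem he, hn]
          have : 0 < (bad G ℓ).card := Finset.card_pos.2 ⟨e, he⟩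
          omega
        refine ih _ hlt (Function.update ℓ f x) rfl ?_
        intro g hg
        by_cases hgf : g = f
        · subst hgf
          rw [Function.update_self]
          exact hxL
        · rw [Function.update_of_ne hgf]
          exact hℓ g hg
      · refine ⟨ℓ, fun e he hc => hbad ⟨e, Finset.mem_filter.2 ⟨he, hc⟩⟩, hℓ⟩
  exact main _ (fun _ => x₀) rfl (fun _ _ => hx₀)

end Pool.Agent.Helper51_Equitable
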