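import Mathlib

/-!
# Combinatorial lemmas: selecting scattered elements, splitting sets evenly
-/

open Finset

namespace Pool.Agent.Helper51_Equitable

open Classical in
/-- Selecting pairwise scattered elements with a prescribed number in each class. -/
theorem exists_select {α : Type} (E : Finset α) (near : α → α → Prop)
    (hrefl : ∀ e ∈ E, near e e) (hsymm : ∀ e f, near e f → near f e) {D : ℕ} (hD1 : 1 ≤ D)
    (hD : ∀ e ∈ E, (E.filter (near e)).card ≤ D) (ℓ : α → ℕ) (L : Finset ℕ) :
    ∀ (s : ℕ) (r : ℕ → ℕ), ∑ b ∈ L, r b = s →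
      (∀ b ∈ L, 0 < r b → D * s ≤ (E.filter (fun e => ℓ e = b)).card) →
      ∃ R : Finset α, R ⊆ E ∧ (∀ e ∈ R, ℓ e ∈ L) ∧
        (∀ e ∈ R, ∀ f ∈ R, e ≠ f → ¬ near e f) ∧
        ∀ b ∈ L, (R.filter (fun e => ℓ e = b)).card = r b := by
  intro s
  induction s with
  | zero =>
    intro r hr _
    refine ⟨∅, by simp, by simp, by simp, ?_⟩
    intro b hb
    have := (Finset.sum_eq_zero_iff.1 hr) b hb
    simp [this]
  | succ s ih =>
    intro r hr hbig
    obtain ⟨b₀, hb₀, hpos⟩ : ∃ b ∈ L, 0 < r b := by
      by_contra hcon
      push Not at hcon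
      have : ∑ b ∈ L, r b = 0 := Finset.sum_eq_zero fun b hb => by
        have := hcon b hb
        omega
      omega
    have hr' : ∑ b ∈ L, (Function.update r b₀ (r b₀ - 1)) b = s := by
      rw [← Finset.add_sum_erase L _ hb₀, Function.update_self]
      have h1 : ∑ b ∈ L.erase b₀, Function.update r b₀ (r b₀ - 1) b = ∑ b ∈ L.erase b₀, r b := by
        apply Finset.sum_congr rfl
        intro b hb
        rw [Function.update_of_ne (Finset.ne_of_mem_erase hb)]
      rw [h1]
      rw [← Finset.add_sum_erase L _ hb₀] at hr
      omega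
    obtain ⟨R, hRE, hRL, hRfar, hRcard⟩ := ih (Function.update r b₀ (r b₀ - 1)) hr' (by
      intro b hb hb'
      have h1 : 0 < r b := by
        by_cases hbb : b = b₀
        · subst hbb
          exact hpos
        · rwa [Function.update_of_ne hbb] at hb'
      have := hbig b hb h1
      have h2 : D * s ≤ D * (s + 1) := Nat.mul_le_mul_left _ (Nat.le_succ s)
      omega)
    have hRs : R.card = s := by
      rw [Finset.card_eq_sum_card_fiberwise (f := ℓ) (t := L) (fun e he => hRL e he), ← hr']
      exact Finset.sum_congr rfl fun b hb => hRcard b hb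
    -- the elements near `R`
    let Z : Finset α := R.biUnion (fun e => E.filter (near e))
    have hZ : Z.card ≤ D * s := by
      calc Z.card ≤ ∑ e ∈ R, (E.filter (near e)).card := Finset.card_biUnion_le
        _ ≤ ∑ _e ∈ R, D := Finset.sum_le_sum fun e he => hD e (hRE he)
        _ = D * s := by rw [Finset.sum_const, hRs, smul_eq_mul, mul_comm]
    have hb₀big := hbig b₀ hb₀ hpos
    obtain ⟨e, he, heZ⟩ : ∃ e ∈ E.filter (fun e => ℓ e = b₀), e ∉ Z := by
      by_contra hcon
      push Not at hcon
      have := Finset.card_le_card (fun x hx => hcon x hx : E.filter (fun e => ℓ e = b₀) ⊆ Z)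
      rw [Nat.mul_succ] at hb₀big
      omega
    rw [Finset.mem_filter] at he
    have hfar : ∀ f ∈ R, ¬ near f e := by
      intro f hf hn
      exact heZ (Finset.mem_biUnion.2 ⟨f, hf, Finset.mem_filter.2 ⟨he.1, hn⟩⟩)
    have heR : e ∉ R := fun h => hfar e h (hrefl e he.1)
    refine ⟨insert e R, ?_, ?_, ?_, ?_⟩
    · exact Finset.insert_subset he.1 hRE
    · intro f hf
      rcases Finset.mem_insert.1 hf with rfl | hf
      · rw [he.2]; exact hb₀
      · exact hRL f hf
    · intro f hf g hg hfg
      rcases Finset.mem_insert.1 hf with hf' | hf'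
      · rcases Finset.mem_insert.1 hg with hg' | hg'
        · exact absurd (hf'.trans hg'.symm) hfg
        · rw [hf']
          exact fun h => hfar g hg' (hsymm _ _ h)
      · rcases Finset.mem_insert.1 hg with hg' | hg'
        · rw [hg']
          exact hfar f hf'
        · exact hRfar f hf' g hg' hfg
    · intro b hb
      rw [Finset.filter_insert]
      by_cases hbb : b = b₀
      · subst hbb
        rw [if_pos he.2, Finset.card_insert_of_notMem (fun h => heR (Finset.mem_filter.1 h).1),
          hRcard b hb, Function.update_self]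
        omega
      · rw [if_neg (fun h => hbb (h.symm.trans he.2)), hRcard b hb, Function.update_of_ne hbb]

open Classical in
/-- Splitting a finite set into `T` parts of sizes `N` or `N + 1`. -/
theorem exists_split {α : Type} (N : ℕ) : ∀ (T t : ℕ) (S : Finset α), t ≤ T →
    S.card + t = T * (N + 1) →
    ∃ x : α → ℕ, (∀ e ∈ S, x e < T) ∧
      ∀ j < T, (S.filter (fun e => x e = j)).card = N ∨
        (S.filter (fun e => x e = j)).card = N + 1 := by
  intro T
  induction T with
  | zero =>
    intro t S _ hS
    have hS0 : S.card = 0 := by omega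
    rw [Finset.card_eq_zero] at hS0
    subst hS0
    exact ⟨fun _ => 0, by simp, by simp⟩
  | succ T ih =>
    intro t S ht hS
    have hex : ∃ a : ℕ, (a = N ∨ a = N + 1) ∧ a ≤ S.card ∧ ∃ t', t' ≤ T ∧
        (S.card - a) + t' = T * (N + 1) := by
      have hexp : (T + 1) * (N + 1) = T * (N + 1) + (N + 1) := by ring
      have hTN : T * (N + 1) = T * N + T := by ring
      by_cases h0 : t = 0
      · exact ⟨N + 1, Or.inr rfl, by omega, 0, by omega, by omega⟩
      · exact ⟨N, Or.inl rfl, by omega, t - 1, by omega, by omega⟩
    obtain ⟨a, ha, haS, t', ht', hcard⟩ := hex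
    obtain ⟨A, hAS, hAcard⟩ := Finset.exists_subset_card_eq haS
    obtain ⟨x, hx1, hx2⟩ := ih t' (S \ A) ht' (by
      rw [Finset.card_sdiff_of_subset hAS, hAcard]
      exact hcard)
    refine ⟨fun e => if e ∈ A then T else x e, ?_, ?_⟩
    · intro e he
      simp only
      split_ifs with h
      · omega
      · have := hx1 e (Finset.mem_sdiff.2 ⟨he, h⟩)
        omega
    · intro j hj
      by_cases hjT : j = T
      · subst hjT
        have : S.filter (fun e => (if e ∈ A then j else x e) = j) = A := by
          ext e
          rw [Finset.mem_filter]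
          constructor
          · rintro ⟨he, h⟩
            by_contra hA
            rw [if_neg hA] at h
            have := hx1 e (Finset.mem_sdiff.2 ⟨he, hA⟩)
            omega
          · intro hA
            exact ⟨hAS hA, by rw [if_pos hA]⟩
        rw [this, hAcard]
        exact ha
      · have : S.filter (fun e => (if e ∈ A then T else x e) = j)
            = (S \ A).filter (fun e => x e = j) := by
          ext e
          rw [Finset.mem_filter, Finset.mem_filter, Finset.mem_sdiff]
          constructor
          · rintro ⟨he, h⟩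
            by_cases hA : e ∈ A
            · rw [if_pos hA] at h
              exact absurd h.symm hjT
            · rw [if_neg hA] at h
              exact ⟨⟨he, hA⟩, h⟩
          · rintro ⟨⟨he, hA⟩, h⟩
            rw [if_neg hA]
            exact ⟨he, h⟩
        rw [this]
        exact hx2 j (by omega)

/-- Distributing `t` units subject to capacities. -/
theorem exists_distribute (C : Finset ℕ) (T : ℕ → ℕ) : ∀ t, t ≤ ∑ c ∈ C, T c →
    ∃ s : ℕ → ℕ, (∀ c ∈ C, s c ≤ T c) ∧ ∑ c ∈ C, s c = t := by
  classical
  induction C using Finset.induction_on with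
  | empty =>
    intro t ht
    simp only [Finset.sum_empty] at ht
    exact ⟨fun _ => 0, by simp, by simp; omega⟩
  | insert a C ha ih =>
    intro t ht
    rw [Finset.sum_insert ha] at ht
    obtain ⟨s, hs1, hs2⟩ := ih (t - min t (T a)) (by omega)
    refine ⟨Function.update s a (min t (T a)), ?_, ?_⟩
    · intro c hc
      by_cases hca : c = a
      · subst hca
        rw [Function.update_self]
        exact min_le_right _ _
      · rw [Function.update_of_ne hca]
        exact hs1 c ((Finset.mem_insert.1 hc).resolve_left hca)
    · rw [Finset.sum_insert ha, Function.update_self]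
      have : ∑ c ∈ C, Function.update s a (min t (T a)) c = ∑ c ∈ C, s c :=
        Finset.sum_congr rfl fun c hc => by
          rw [Function.update_of_ne]
          rintro rfl
          exact ha hc
      rw [this, hs2]
      omega

/-- Choice of the number of classes and of the class size. -/
theorem exists_arith (m K : ℕ) (hK : 1 ≤ K) :
    ∃ N K' t : ℕ, K' ≤ K ∧ m + t = K' * (N + 1) ∧ t ≤ N ∧ t ≤ K' ∧ K * N ≤ m := by
  have h1 : K * (m / K) ≤ m := Nat.mul_div_le m K
  have h2 : m < K * (m / K + 1) := by
    have := Nat.lt_mul_div_succ m hK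
    simpa using this
  set N := m / K with hN
  by_cases hc : K ≤ N
  · refine ⟨N, K, K * (N + 1) - m, le_rfl, by omega, ?_, ?_, h1⟩
    · have : K * (N + 1) = K * N + K := by ring
      omega
    · have : K * (N + 1) = K * N + K := by ring
      omega
  · push Not at hc
    have hpos : 0 < N + 1 := Nat.succ_pos _
    set K' := (m + N) / (N + 1) with hK'
    have h3 : K' * (N + 1) ≤ m + N := Nat.div_mul_le_self _ _
    have h4 : m + N < K' * (N + 1) + (N + 1) := by
      have := Nat.lt_mul_div_succ (m + N) hpos
      rw [← hK'] at this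
      rw [mul_comm K']
      rw [Nat.mul_add] at this
      omega
    have h5 : K' ≤ K := by
      by_contra hcon
      push Not at hcon
      have : (K + 1) * (N + 1) ≤ K' * (N + 1) := Nat.mul_le_mul_right _ hcon
      have h6 : (K + 1) * (N + 1) = K * (N + 1) + (N + 1) := by ring
      omega
    refine ⟨N, K', K' * (N + 1) - m, h5, by omega, by omega, ?_, h1⟩
    -- `t ≤ N ≤ K'`
    rcases Nat.eq_zero_or_pos N with h0 | h0
    · rw [h0] at h3 h4 ⊢
      omega
    · have : N ≤ K' := by
        by_contra hcon
        push Not at hcon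
        obtain ⟨d, hd⟩ : ∃ d, N = K' + 1 + d := ⟨N - K' - 1, by omega⟩
        have h7 : (N + 1) * N ≤ K * N := Nat.mul_le_mul_right _ hc
        have h8 : (N + 1) * K' + (N + 1) ≤ (N + 1) * N := by
          have : (N + 1) * (K' + 1) ≤ (N + 1) * N := Nat.mul_le_mul_left _ hcon
          rw [Nat.mul_add, Nat.mul_one] at this
          exact this
        rw [mul_comm K'] at h4
        omega
      omega

end Pool.Agent.Helper51_Equitable
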