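import Mathlib

/-!
# Equitable proper edge labellings: definitions

A labelling of a graph `G` on `V` is a map `ℓ : Sym2 V → ℕ`; only its values on the edges of `G`
matter.
-/

open SimpleGraph

namespace Pool.Agent.Helper51_Equitable

variable {V : Type}

open Classical in
/-- The sum `σ_ℓ(v)` of the labels of the edges at `v`. -/
noncomputable def vertexSum [Fintype V] (G : SimpleGraph V) (ℓ : Sym2 V → ℕ) (v : V) : ℕ :=
  ∑ w : V, if G.Adj v w then ℓ s(v, w) else 0

/-- The number `nb(l, ℓ)` of edges of `G` with label `l`. -/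
noncomputable def nb (G : SimpleGraph V) (ℓ : Sym2 V → ℕ) (l : ℕ) : ℕ :=
  {e | e ∈ G.edgeSet ∧ ℓ e = l}.ncard

/-- `ℓ` is an equitable proper `k`-labelling of `G`. -/
structure IsEquitableProper [Fintype V] (G : SimpleGraph V) (k : ℕ) (ℓ : Sym2 V → ℕ) : Prop where
  /-- labels of edges lie in `{1, …, k}` -/
  range : ∀ e ∈ G.edgeSet, 1 ≤ ℓ e ∧ ℓ e ≤ k
  /-- adjacent vertices have distinct sums -/
  proper : ∀ u v, G.Adj u v → vertexSum G ℓ u ≠ vertexSum G ℓ v
  /-- any two labels that are used are used equally often up to one -/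
  equitable : ∀ l l', 0 < nb G ℓ l → 0 < nb G ℓ l' → nb G ℓ l ≤ nb G ℓ l' + 1

/-- A graph is nice if none of its connected components is isomorphic to `K₂`. -/
def Nice (G : SimpleGraph V) : Prop :=
  ∀ c : G.ConnectedComponent, IsEmpty (G.induce c.supp ≃g (⊤ : SimpleGraph (Fin 2)))

end Pool.Agent.Helper51_Equitable
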