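import Pool.Agent.Helper51_Equitable.Balanced
import Pool.Agent.Helper51_Equitable.Combi

/-!
# Equitable proper labellings of graphs of bounded degree
-/

open SimpleGraph Finset

namespace Pool.Agent.Helper51_Equitable

variable {V : Type} [Fintype V] {G : SimpleGraph V}

/-- two edges are near if they meet or are joined by an edge of `G` -/
def Near (G : SimpleGraph V) (e f : Sym2 V) : Prop := ∃ u ∈ e, ∃ v ∈ f, u = v ∨ G.Adj u v

omit [Fintype V] in
theorem near_refl (e : Sym2 V) : Near G e e := by
  induction e using Sym2.ind with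
  | _ u v => exact ⟨u, Sym2.mem_mk_left u v, u, Sym2.mem_mk_left u v, Or.inl rfl⟩

omit [Fintype V] in
theorem near_symm {e f : Sym2 V} (h : Near G e f) : Near G f e := by
  obtain ⟨u, hu, v, hv, h⟩ := h
  rcases h with h | h
  · exact ⟨v, hv, u, hu, Or.inl h.symm⟩
  · exact ⟨v, hv, u, hu, Or.inr h.symm⟩

open Classical in
theorem near_card {Δ : ℕ} (hΔ : ∀ v, (nbrs G v).card ≤ Δ) {e : Sym2 V} (he : e ∈ edges G) :
    ((edges G).filter (Near G e)).card ≤ 2 * Δ * Δ := by
  induction e using Sym2.ind with
  | _ a b =>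
    have hab : G.Adj a b := mem_edges.1 he
    have hsub : (edges G).filter (Near G s(a, b)) ⊆
        (nbrs G a ∪ nbrs G b).biUnion (fun w => (nbrs G w).image (fun z => s(w, z))) := by
      intro f hf
      rw [Finset.mem_filter] at hf
      obtain ⟨hfE, u, hu, v, hv, huv⟩ := hf
      have hv' : v ∈ nbrs G a ∪ nbrs G b := by
        rw [Finset.mem_union, mem_nbrs, mem_nbrs]
        rcases Sym2.mem_iff.1 hu with rfl | rfl
        · rcases huv with rfl | huv
          · exact Or.inr hab.symm
          · exact Or.inl huv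
        · rcases huv with rfl | huv
          · exact Or.inl hab
          · exact Or.inr huv
      obtain ⟨z, rfl⟩ := Sym2.mem_iff_exists.1 hv
      refine Finset.mem_biUnion.2 ⟨v, hv', Finset.mem_image.2 ⟨z, ?_, rfl⟩⟩
      exact mem_nbrs.2 (mem_edges.1 hfE)
    refine (Finset.card_le_card hsub).trans ?_
    calc ((nbrs G a ∪ nbrs G b).biUnion (fun w => (nbrs G w).image (fun z => s(w, z)))).card
        ≤ ∑ w ∈ nbrs G a ∪ nbrs G b, ((nbrs G w).image (fun z => s(w, z))).card :=
          Finset.card_biUnion_le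
      _ ≤ ∑ _w ∈ nbrs G a ∪ nbrs G b, Δ :=
          Finset.sum_le_sum fun w _ => Finset.card_image_le.trans (hΔ w)
      _ = (nbrs G a ∪ nbrs G b).card * Δ := by rw [Finset.sum_const, smul_eq_mul]
      _ ≤ (2 * Δ) * Δ := by
          apply Nat.mul_le_mul_right
          have h1 := Finset.card_union_le (nbrs G a) (nbrs G b)
          have h2 := hΔ a
          have h3 := hΔ b
          omega

theorem vertexSum_le {Δ : ℕ} (hΔ : ∀ v, (nbrs G v).card ≤ Δ) {ℓ : Sym2 V → ℕ} {Y : ℕ}
    (hY : ∀ e ∈ edges G, ℓ e ≤ Y) (v : V) : vertexSum G ℓ v ≤ Δ * Y := by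
  rw [vertexSum_eq]
  calc ∑ w ∈ nbrs G v, ℓ s(v, w) ≤ ∑ _w ∈ nbrs G v, Y :=
        Finset.sum_le_sum fun w hw => hY _ (mem_edges.2 (mem_nbrs.1 hw))
    _ = (nbrs G v).card * Y := by rw [Finset.sum_const, smul_eq_mul]
    _ ≤ Δ * Y := Nat.mul_le_mul_right _ (hΔ v)

theorem le_vertexSum {ℓ : Sym2 V → ℕ} {u w : V} (h : G.Adj u w) :
    ℓ s(u, w) ≤ vertexSum G ℓ u := by
  rw [vertexSum_eq]
  exact Finset.single_le_sum (f := fun w => ℓ s(u, w)) (fun _ _ => Nat.zero_le _) (mem_nbrs.2 h)

open Classical in
/-- Giving a scattered set of edges one huge label keeps a labelling proper. -/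
theorem proper_big {Δ Y : ℕ} (hΔ : ∀ v, (nbrs G v).card ≤ Δ) {ℓ : Sym2 V → ℕ}
    (hℓ : Proper G ℓ) (hY : ∀ e ∈ edges G, ℓ e ≤ Y) {R : Finset (Sym2 V)} (hR : R ⊆ edges G)
    (hfar : ∀ e ∈ R, ∀ f ∈ R, e ≠ f → ¬ Near G e f) {B : ℕ} (hB : Δ * Y < B) :
    Proper G (fun e => if e ∈ R then B else ℓ e) := by
  rw [proper_iff] at hℓ ⊢
  set g : Sym2 V → ℕ := fun e => if e ∈ R then B else ℓ e with hg
  -- vertices without an edge in `R`
  have hno : ∀ v, (∀ e ∈ R, v ∉ e) → vertexSum G g v = vertexSum G ℓ v := by
    intro v hv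
    apply vertexSum_congr
    intro w _
    rw [hg]
    simp only
    rw [if_neg]
    exact fun h => hv _ h (Sym2.mem_mk_left v w)
  -- vertices with an edge in `R`
  have hyes : ∀ v e, e ∈ R → v ∈ e → B ≤ vertexSum G g v := by
    intro v e he hv
    obtain ⟨w, rfl⟩ := Sym2.mem_iff_exists.1 hv
    have h1 := le_vertexSum (ℓ := g) (mem_edges.1 (hR he) : G.Adj v w)
    rw [hg] at h1 ⊢
    simp only [if_pos he] at h1
    exact h1
  have hends : ∀ u v, s(u, v) ∈ R → vertexSum G g u + ℓ s(u, v) = vertexSum G ℓ u + B := by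
    intro u v he
    have huv : G.Adj u v := mem_edges.1 (hR he)
    rw [← vertexSum_update_of_mem huv B]
    congr 1
    apply vertexSum_congr
    intro w huw
    by_cases hwv : w = v
    · subst hwv
      rw [Function.update_self, hg]
      simp only
      rw [if_pos he]
    · have hne : s(u, w) ≠ s(u, v) := by
        intro h
        rcases Sym2.eq_iff.1 h with ⟨_, h2⟩ | ⟨h1, h2⟩
        · exact hwv h2
        · exact hwv (h2.trans h1)
      rw [Function.update_of_ne hne, hg]
      simp only
      rw [if_neg]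
      intro hwR
      exact hfar _ hwR _ he hne
        ⟨u, Sym2.mem_mk_left u w, u, Sym2.mem_mk_left u v, Or.inl rfl⟩
  intro u v huv heq
  by_cases hu : ∃ e ∈ R, u ∈ e
  · obtain ⟨e, heR, hue⟩ := hu
    by_cases hv : ∃ f ∈ R, v ∈ f
    · obtain ⟨f, hfR, hvf⟩ := hv
      have hef : e = f := by
        by_contra hne
        exact hfar e heR f hfR hne ⟨u, hue, v, hvf, Or.inr huv⟩
      subst hef
      have he : e = s(u, v) := (Sym2.mem_and_mem_iff huv.ne).1 ⟨hue, hvf⟩
      subst he
      have h1 := hends u v heR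
      have h2 := hends v u (by rw [Sym2.eq_swap]; exact heR)
      rw [Sym2.eq_swap (a := v) (b := u)] at h2
      exact hℓ u v huv (by omega)
    · push Not at hv
      have h1 := hyes u e heR hue
      have h2 := hno v hv
      have h3 := vertexSum_le hΔ hY v
      omega
  · push Not at hu
    have h1 := hno u hu
    by_cases hv : ∃ f ∈ R, v ∈ f
    · obtain ⟨f, hfR, hvf⟩ := hv
      have h2 := hyes v f hfR hvf
      have h3 := vertexSum_le hΔ hY u
      omega
    · push Not at hv
      have h2 := hno v hv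
      exact hℓ u v huv (by omega)

open Classical in
theorem nb_eq (ℓ : Sym2 V → ℕ) (l : ℕ) : nb G ℓ l = ((edges G).filter (fun e => ℓ e = l)).card := by
  unfold nb
  rw [← Set.ncard_coe_finset]
  congr 1
  ext e
  simp [mem_edges]

/-- the number of final labels -/
def numK (Δ : ℕ) : ℕ := 4 * Δ * (2 * Δ * Δ * (4 * Δ + 1) + 1)

/-- the bound for the labels -/
def bound (Δ : ℕ) : ℕ := (Δ * numK Δ + 1) * (Δ * (4 * Δ) + 1) + numK Δ

open Classical in
theorem exists_equitable {Δ : ℕ} (hΔ1 : 1 ≤ Δ) (hΔ : ∀ v, (nbrs G v).card ≤ Δ)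
    (hnext : HasNext G) : ∃ ℓ : Sym2 V → ℕ, IsEquitableProper G (bound Δ) ℓ := by
  obtain ⟨L, ℓ, hLsub, hprop, hlab, hbig⟩ := exists_balanced hΔ hnext (Y := 4 * Δ) (by omega)
  set Y : ℕ := 4 * Δ with hYdef
  set D : ℕ := 2 * Δ * Δ with hDdef
  set K : ℕ := numK Δ with hKdef
  have hKeq : K = Y * (D * (Y + 1) + 1) := rfl
  have hYpos : 0 < Y := by omega
  have hD1 : 1 ≤ D := by
    have : 1 ≤ Δ * Δ := Nat.mul_pos hΔ1 hΔ1
    rw [hDdef, mul_assoc]
    omega
  have hK1 : 1 ≤ K := by
    rw [hKeq]
    exact Nat.mul_pos hYpos (Nat.succ_pos _)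
  set m : ℕ := (edges G).card with hm
  obtain ⟨N, K', t, hK'K, hmt, htN, htK', hKN⟩ := exists_arith m K hK1
  set n : ℕ → ℕ := fun b => (cls G ℓ b).card with hn
  have hsum : ∑ b ∈ L, n b = m := by
    rw [hn, hm]
    exact (Finset.card_eq_sum_card_fiberwise (fun e he => hlab e he)).symm
  set P : ℕ := N + 1 with hP
  set T : ℕ → ℕ := fun b => n b / P with hT
  have hdiv : ∀ b, n b = T b * P + n b % P := by
    intro b
    rw [hT]
    simp only
    rw [mul_comm]
    exact (Nat.div_add_mod (n b) P).symm
  set sT : ℕ := ∑ b ∈ L, T b with hST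
  set sM : ℕ := ∑ b ∈ L, n b % P with hSM
  have hsplit : sT * P + sM = m := by
    rw [hST, hSM, Finset.sum_mul, ← Finset.sum_add_distrib, ← hsum]
    exact Finset.sum_congr rfl fun b _ => (hdiv b).symm
  have hTsum : sT ≤ K' := by
    have h1 : sT * P ≤ K' * P := by
      calc sT * P ≤ m + t := by omega
        _ = K' * P := hmt
    exact Nat.le_of_mul_le_mul_right h1 (Nat.succ_pos N)
  set B : ℕ := Δ * Y + 1 with hB
  have hLY : ∀ b ∈ L, 1 ≤ b ∧ b ≤ Y := fun b hb => Finset.mem_Icc.1 (hLsub hb)
  have hYB : Y < B := by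
    have : 1 * Y ≤ Δ * Y := Nat.mul_le_mul_right _ hΔ1
    omega
  have hBL : B ∉ L := by
    intro h
    have := (hLY B h).2
    omega
  set T' : ℕ → ℕ := fun c => if c = B then K' - sT else T c with hT'
  have hT'B : T' B = K' - sT := by rw [hT']; simp
  have hT'b : ∀ b ∈ L, T' b = T b := by
    intro b hb
    rw [hT']
    simp only
    rw [if_neg]
    rintro rfl
    exact hBL hb
  have hT'sum : ∑ c ∈ insert B L, T' c = K' := by
    have h1 : ∑ b ∈ L, T' b = sT := Finset.sum_congr rfl hT'b
    rw [Finset.sum_insert hBL, hT'B, h1]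
    omega
  obtain ⟨s, hs1, hs2⟩ := exists_distribute (insert B L) T' t (by rw [hT'sum]; exact htK')
  rw [Finset.sum_insert hBL] at hs2
  set r : ℕ → ℕ := fun b => n b % P + s b with hr
  have hrsum : ∑ b ∈ L, r b = sM + ∑ b ∈ L, s b := by
    rw [hr, hSM, ← Finset.sum_add_distrib]
  have hrB : ∑ b ∈ L, r b + s B = T' B * P := by
    rw [hrsum, hT'B, Nat.sub_mul]
    omega
  -- the selection
  have hLcard : L.card ≤ Y := by
    have := Finset.card_le_card hLsub
    simpa using this
  have hSMle : sM ≤ Y * N := by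
    calc sM ≤ ∑ _b ∈ L, N := Finset.sum_le_sum fun b _ => by
          have : n b % P < P := Nat.mod_lt _ (Nat.succ_pos N)
          omega
      _ = L.card * N := by rw [Finset.sum_const, smul_eq_mul]
      _ ≤ Y * N := Nat.mul_le_mul_right _ hLcard
  have hSr : ∑ b ∈ L, r b ≤ (Y + 1) * N := by
    rw [hrsum, Nat.add_mul, Nat.one_mul]
    omega
  obtain ⟨R, hRE, hRL, hRfar, hRcard⟩ := exists_select (edges G) (Near G)
    (fun e _ => near_refl e) (fun e f h => near_symm h) hD1 (fun e he => near_card hΔ he)
    ℓ L (∑ b ∈ L, r b) r rfl (by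
      intro b hb hpos
      have hNpos : 0 < N := by
        by_contra hcon
        have hN0 : N = 0 := by omega
        have h1 : n b % P = 0 := by rw [hP, hN0]; exact Nat.mod_one _
        have h2 : s b ≤ ∑ b ∈ L, s b := Finset.single_le_sum (fun _ _ => Nat.zero_le _) hb
        rw [hr] at hpos
        simp only at hpos
        omega
      have h1 : Y * ((D * (Y + 1) + 1) * N) ≤ Y * (n b + 1) := by
        calc Y * ((D * (Y + 1) + 1) * N) = K * N := by rw [hKeq]; ring
          _ ≤ m := hKN
          _ ≤ Y * (n b + 1) := hbig b hb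
      have h2 : (D * (Y + 1) + 1) * N ≤ n b + 1 := Nat.le_of_mul_le_mul_left h1 hYpos
      have h3 : D * ∑ b ∈ L, r b ≤ D * ((Y + 1) * N) := Nat.mul_le_mul_left _ hSr
      have h4 : (D * (Y + 1) + 1) * N = D * ((Y + 1) * N) + N := by ring
      show D * ∑ b ∈ L, r b ≤ n b
      omega)
  set g : Sym2 V → ℕ := fun e => if e ∈ R then B else ℓ e with hg
  have hgprop : Proper G g :=
    proper_big hΔ hprop (fun e he => (hLY _ (hlab e he)).2) hRE hRfar (by omega)
  have hgC : ∀ e ∈ edges G, g e ∈ insert B L := by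
    intro e he
    rw [hg]
    simp only
    split_ifs
    · exact Finset.mem_insert_self _ _
    · exact Finset.mem_insert_of_mem (hlab e he)
  have hRs : R.card = ∑ b ∈ L, r b := by
    rw [Finset.card_eq_sum_card_fiberwise (f := ℓ) (t := L) (fun e he => hRL e he)]
    exact Finset.sum_congr rfl fun b hb => hRcard b hb
  have hclsg : ∀ c ∈ insert B L,
      ((edges G).filter (fun e => g e = c)).card + s c = T' c * P := by
    intro c hc
    rcases Finset.mem_insert.1 hc with rfl | hcL
    · have : (edges G).filter (fun e => g e = B) = R := by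
        ext e
        rw [Finset.mem_filter]
        constructor
        · rintro ⟨he, h⟩
          by_contra heR
          rw [hg] at h
          simp only [if_neg heR] at h
          exact hBL (h ▸ hlab e he)
        · intro heR
          refine ⟨hRE heR, ?_⟩
          rw [hg]
          simp only [if_pos heR]
      rw [this, hRs, hrB]
    · have hcB : c ≠ B := by
        rintro rfl
        exact hBL hcL
      have h1 : (edges G).filter (fun e => g e = c) = (cls G ℓ c) \ (R.filter (fun e => ℓ e = c)) := by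
        ext e
        rw [Finset.mem_filter, Finset.mem_sdiff, mem_cls, Finset.mem_filter]
        constructor
        · rintro ⟨he, h⟩
          have heR : e ∉ R := by
            intro heR
            rw [hg] at h
            simp only [if_pos heR] at h
            exact hcB h.symm
          rw [hg] at h
          simp only [if_neg heR] at h
          exact ⟨⟨he, h⟩, fun h' => heR h'.1⟩
        · rintro ⟨⟨he, h⟩, h'⟩
          have heR : e ∉ R := fun heR => h' ⟨heR, h⟩
          refine ⟨he, ?_⟩
          rw [hg]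
          simp only [if_neg heR]
          exact h
      have hsub : R.filter (fun e => ℓ e = c) ⊆ cls G ℓ c := by
        intro e he
        rw [Finset.mem_filter] at he
        exact mem_cls.2 ⟨hRE he.1, he.2⟩
      have hle := Finset.card_le_card hsub
      rw [h1, Finset.card_sdiff_of_subset hsub, hRcard c hcL, hT'b c hcL]
      rw [hRcard c hcL] at hle
      have h2 := hdiv c
      have h3 : r c = n c % P + s c := rfl
      have h4 : (cls G ℓ c).card = n c := rfl
      rw [h4] at hle ⊢
      omega
  have hT'K : ∀ c ∈ insert B L, T' c ≤ K := by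
    intro c hc
    have : T' c ≤ ∑ c ∈ insert B L, T' c := Finset.single_le_sum (fun _ _ => Nat.zero_le _) hc
    rw [hT'sum] at this
    omega
  have hxex : ∀ c ∈ insert B L, ∃ x : Sym2 V → ℕ,
      (∀ e ∈ (edges G).filter (fun e => g e = c), x e < T' c) ∧
      ∀ j < T' c, (((edges G).filter (fun e => g e = c)).filter (fun e => x e = j)).card = N ∨
        (((edges G).filter (fun e => g e = c)).filter (fun e => x e = j)).card = N + 1 :=
    fun c hc => exists_split N (T' c) (s c) _ (hs1 c hc) (hclsg c hc)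
  choose! x hx1 hx2 using hxex
  have hxK : ∀ e ∈ edges G, x (g e) e < T' (g e) ∧ x (g e) e < K := by
    intro e he
    have h1 := hx1 (g e) (hgC e he) e (Finset.mem_filter.2 ⟨he, rfl⟩)
    exact ⟨h1, h1.trans_le (hT'K _ (hgC e he))⟩
  have hgB : ∀ e ∈ edges G, g e ≤ B := by
    intro e he
    rcases Finset.mem_insert.1 (hgC e he) with h | h
    · exact h.le
    · have := (hLY _ h).2
      omega
  set M : ℕ := Δ * K + 1 with hM
  have hKM : K < M := by
    have : 1 * K ≤ Δ * K := Nat.mul_le_mul_right _ hΔ1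
    omega
  let lam : Sym2 V → ℕ := fun e => M * g e + x (g e) e + 1
  have hlamv : ∀ v, vertexSum G lam v
      = M * vertexSum G g v + vertexSum G (fun e => x (g e) e + 1) v := by
    intro v
    rw [vertexSum_eq, vertexSum_eq, vertexSum_eq, Finset.mul_sum, ← Finset.sum_add_distrib]
    exact Finset.sum_congr rfl fun w _ => by simp only [lam]; ring
  have hsmall : ∀ v, vertexSum G (fun e => x (g e) e + 1) v < M := by
    intro v
    have := vertexSum_le (ℓ := fun e => x (g e) e + 1) hΔ (Y := K)
      (fun e he => (hxK e he).2) v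
    omega
  refine ⟨lam, ?_, ?_, ?_⟩
  · intro e he
    have he' := mem_edges.2 he
    refine ⟨Nat.succ_pos _, ?_⟩
    have h1 := (hxK e he').2
    have h2 : M * g e ≤ M * B := Nat.mul_le_mul_left _ (hgB e he')
    show M * g e + x (g e) e + 1 ≤ M * B + K
    omega
  · intro u v huv heq
    rw [hlamv, hlamv] at heq
    have h1 := hsmall u
    have h2 := hsmall v
    have h3 : vertexSum G g u = vertexSum G g v := by
      have hMpos : 0 < M := by omega
      have e1 : (M * vertexSum G g u + vertexSum G (fun e => x (g e) e + 1) u) / M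
          = vertexSum G g u := by
        rw [Nat.mul_add_div hMpos, Nat.div_eq_of_lt h1, add_zero]
      have e2 : (M * vertexSum G g v + vertexSum G (fun e => x (g e) e + 1) v) / M
          = vertexSum G g v := by
        rw [Nat.mul_add_div hMpos, Nat.div_eq_of_lt h2, add_zero]
      rw [← e1, heq, e2]
    exact (proper_iff.1 hgprop) u v huv h3
  · have hnb : ∀ l, 0 < nb G lam l → nb G lam l = N ∨ nb G lam l = N + 1 := by
      intro l hl
      rw [nb_eq] at hl ⊢
      obtain ⟨e₀, he₀⟩ := Finset.card_pos.1 hl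
      rw [Finset.mem_filter] at he₀
      obtain ⟨he₀E, he₀l⟩ := he₀
      have hfil : (edges G).filter (fun e => lam e = l)
          = ((edges G).filter (fun e => g e = g e₀)).filter
              (fun e => x (g e₀) e = x (g e₀) e₀) := by
        ext e
        rw [Finset.mem_filter, Finset.mem_filter, Finset.mem_filter]
        constructor
        · rintro ⟨he, h⟩
          have h0 : M * g e + x (g e) e + 1 = M * g e₀ + x (g e₀) e₀ + 1 := h.trans he₀l.symm
          have h1 := (hxK e he).2
          have h2 := (hxK e₀ he₀E).2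
          have hMpos : 0 < M := by omega
          have h3 : M * g e + x (g e) e = M * g e₀ + x (g e₀) e₀ := by omega
          have h4 : g e = g e₀ := by
            have e1 : (M * g e + x (g e) e) / M = g e := by
              rw [Nat.mul_add_div hMpos, Nat.div_eq_of_lt (by omega), add_zero]
            have e2 : (M * g e₀ + x (g e₀) e₀) / M = g e₀ := by
              rw [Nat.mul_add_div hMpos, Nat.div_eq_of_lt (by omega), add_zero]
            rw [← e1, h3, e2]
          refine ⟨⟨he, h4⟩, ?_⟩
          rw [h4] at h3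
          omega
        · rintro ⟨⟨he, h⟩, h'⟩
          refine ⟨he, ?_⟩
          rw [← he₀l]
          show M * g e + x (g e) e + 1 = M * g e₀ + x (g e₀) e₀ + 1
          rw [h, h']
      rw [hfil]
      exact hx2 (g e₀) (hgC e₀ he₀E) _ (hxK e₀ he₀E).1
    intro l l' hl hl'
    rcases hnb l hl with h | h <;> rcases hnb l' hl' with h' | h' <;> omega

end Pool.Agent.Helper51_Equitable
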